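import Pool.Agent.Lib.MP_4322ef_CE.H07

/-!
# MP_4322ef_al: the convex hull conjecture for complex groups

Let `G` be a connected complex reductive group, considered as a real group: `g = k₀ + J k₀`,
`t = J a`, `h = t + a`. `W` is the Weyl group of the roots of `(g, a)`, `2 rho` the sum of the positive
roots; elements of `a*` and (with `J`) of `t*` are written as elements of `a`.

Comparison with the question. The Weyl group of `h` is `W × W`; an element `(mu, nu)` of `t* + a*`
corresponds to the pair `((mu + nu) / 2, (nu - mu) / 2)`, and `rho(g)` to the pair `(rho, rho)`. So for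
`z` orthogonal to the roots, `(mu, nu)` lies in `z + conv((W × W) rho(g))` if and only if `mu + nu - z`
and `mu - nu - z` lie in the hull of the `W`-orbit of `2 rho` (which is stable under `-1`). Further,
`rho(g)` restricted to `t` is `2 rho(k) = 2 rho`, hence `lambda_a = mu` for the `k₀`-type with extreme
weight `mu`, and this `k₀`-type is unitarily small with `lambda_u = z` if and only if `mu - z` lies in
the hull, that is, if all its weights lie in `z +` hull.

`X` is irreducible with an invariant Hermitian form and Langlands parameter `(mu, nu)`, `nu` real
(`IsLang`): `nu` is dominant for a positive system, and `X` is a submodule of the principal series of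
this positive system with `t`-parameter `mu` and exponent `2 rho - nu`. By Langlands and Zhelobenko every
irreducible `X` with real infinitesimal character has such a parameter, unique up to `W` (for Hermitian
`X` with either sign of `nu`), its lowest `k₀`-type `V₀` is the one with extreme weight `mu`, and
`(mu, nu)` is its infinitesimal character.

The theorem is part (ii) of the question (hence part (i)) for these `X`, for every complex reductive Lie
algebra `g`. No hypothesis on `g` is made, and no theorem on its representations is assumed: the proof
contains the theorem of the highest weight (`hwt_all`) and the theorem of Parthasarathy, Ranga Rao,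
Varadarajan, Kumar and Mathieu on extreme components of tensor products (`prv_all`).
-/

set_option autoImplicit false

open scoped InnerProductSpace

open Pool.Agent.Lib.MP_4322ef_al.SR Pool.Agent.Lib.MP_4322ef_CH

/-- If the lowest `k₀`-type of `X` is unitarily small with `lambda_u = z` and the infinitesimal character
`(mu, nu)` does not lie in `z + conv(W(g, h) rho(g))`, then there are unitarily small `k₀`-types of `X`
on which the form is positive resp. negative definite. -/
theorem Pool.Agent.Results.MP_4322ef_al.ComplexHull.result
    {g : Type} [NormedAddCommGroup g] [InnerProductSpace ℝ g] [FiniteDimensional ℝ g]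
    {L : RedLie g} (J : CStr L) (C : CSub L)
    {X : Type} [NormedAddCommGroup X] [InnerProductSpace ℂ X] (r : HC L X) (B : InvForm r)
    {V₀ : Submodule ℂ X} (hV₀ : IsKType L r.op V₀) {mu nu z : g} (hmu : IsExt J C.a r.op V₀ mu)
    (hnu : nu ∈ C.a) (hX : IsLang J C.a r.op mu nu)
    (hz : z ∈ C.a) (hz0 : ∀ al ∈ roots L C.a, ⟪al, z⟫_ℝ = 0)
    (hin : InHull L C.a (mu - z))
    (hout : ¬(InHull L C.a (mu + nu - z) ∧ InHull L C.a (mu - nu - z))) :
    ∃ V₁ V₂ : Submodule ℂ X, IsKType L r.op V₁ ∧ IsKType L r.op V₂ ∧
      SmallAt J C.a r.op z V₁ ∧ SmallAt J C.a r.op z V₂ ∧
      (∀ v ∈ V₁, v ≠ 0 → 0 < (B.form v v).re) ∧ ∀ v ∈ V₂, v ≠ 0 → (B.form v v).re < 0 :=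
  final_all J C r B hV₀ hmu hnu hX hz hz0 hin hout
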