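import Pool.Agent.Lib.MP_4322ef_al.SR.Fin

/-!
# MP_4322ef_al: detection of non-unitarity outside the convex hull by small `k₀`-types

Let `X` be an irreducible Harish-Chandra module of a real reductive Lie algebra `g` with an invariant
Hermitian form, `rho - ν` an exponent of `X`, `V₀` a `k₀`-type of `X` with Casimir eigenvalue `c₀`, and
`Y` a finite dimensional spherical representation of `g` with highest restricted weight `h`. If
the `k₀`-types of `X` which occur in `V₀ ⊗ Y` have Casimir eigenvalues at least `c₀ - 2 s` and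
`Re ν(h) > rho(h) + s`, then the form is positive definite on one and negative definite on another
`k₀`-type of `X` which occurs in `V₀ ⊗ Y`. They are unitarily small if all `k₀`-types of `V₀ ⊗ Y` are.

Spherical `X`: `V₀` trivial, `c₀ = s = 0`; the hypothesis is `Re ν(h) > rho(h)`.
-/

set_option autoImplicit false

open scoped InnerProductSpace

open Pool.Agent.Lib.MP_4322ef_al.SR

theorem Pool.Agent.Results.MP_4322ef_al.SphericalHull.result
    {g : Type} [NormedAddCommGroup g] [InnerProductSpace ℝ g] [FiniteDimensional ℝ g]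
    {L : RedLie g} (C : CSub L)
    {X : Type} [NormedAddCommGroup X] [InnerProductSpace ℂ X] (ρ : HC L X) (B : InvForm ρ)
    (ν : g →ₗ[ℝ] ℂ) (hν : HasExponent ρ C ν)
    {Y : Type} [NormedAddCommGroup Y] [InnerProductSpace ℂ Y] (σ : Rep L Y) (h : g)
    (hY : IsSpherical C σ h)
    (V₀ : Submodule ℂ X) (hV₀ : KType ρ V₀) (c₀ s : ℝ)
    (hc : ∀ v ∈ V₀, casimir ρ v = (c₀ : ℂ) • v)
    (hs : ∀ V, KType ρ V → Occurs ρ V₀ σ V → ∀ c : ℝ, (∀ v ∈ V, casimir ρ v = (c : ℂ) • v) →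
      c₀ - 2 * s ≤ c)
    (hlt : C.rho h + s < (ν h).re) :
    ∃ V₁ V₂ : Submodule ℂ X, KType ρ V₁ ∧ KType ρ V₂ ∧
      Occurs ρ V₀ σ V₁ ∧ Occurs ρ V₀ σ V₂ ∧
      (∀ v ∈ V₁, v ≠ 0 → 0 < (B.form v v).re) ∧ (∀ v ∈ V₂, v ≠ 0 → (B.form v v).re < 0) ∧
      (TensorSmall ρ V₀ σ → USmall ρ V₁ ∧ USmall ρ V₂) :=
  partB ρ C B ν hν σ h hY V₀ hV₀ c₀ s hc hs hlt
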